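import Pool.Agent.H97.NR.Stmts

/-!
Normal forms for the rings with table `tab4b`.
-/

namespace Pool.NR.R4B

set_option linter.unusedSimpArgs false

universe u

variable {p : ℕ}

theorem zsmul_congr {R : Type u} [NonUnitalRing R] {z : R} (hz : p • z = 0) {m n : ℤ}
    (h : (m : ZMod p) = (n : ZMod p)) : m • z = n • z := by
  rw [ZMod.intCast_eq_intCast_iff_dvd_sub] at h
  obtain ⟨c, hc⟩ := h
  have h1 : n = m + (p : ℤ) * c := by linarith
  rw [h1, add_zsmul, mul_comm, mul_zsmul, natCast_zsmul, hz, zsmul_zero, add_zero]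

theorem zsmul_eq_val {R : Type u} [NonUnitalRing R] [NeZero p] {z : R} (hz : p • z = 0) {m : ℤ}
    {a : ZMod p} (h : (m : ZMod p) = a) : m • z = a.val • z := by
  rw [← natCast_zsmul z a.val]
  apply zsmul_congr hz
  rw [h]
  simp

theorem mem_of_coprime {R : Type u} [NonUnitalRing R] (H : AddSubgroup R) (a : R) (m : ℤ)
    (hm : IsCoprime m (p : ℤ)) (h1 : m • a ∈ H) (h2 : p • a ∈ H) : a ∈ H := by
  obtain ⟨x, y, hxy⟩ := hm
  have h3 : a = x • (m • a) + y • (p • a) := by
    rw [← natCast_zsmul a p, ← mul_zsmul, ← mul_zsmul, ← add_zsmul, hxy, one_zsmul]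
  rw [h3]
  exact H.add_mem (H.zsmul_mem h1 x) (H.zsmul_mem h2 y)

theorem coprime_val [Fact p.Prime] {a : ZMod p} (ha : a ≠ 0) :
    IsCoprime ((a.val : ℤ)) (p : ℤ) := by
  rw [Nat.isCoprime_iff_coprime]
  have h := (Fact.out : p.Prime)
  rw [Nat.coprime_comm, h.coprime_iff_not_dvd]
  intro hd
  have h1 := Nat.eq_zero_of_dvd_of_lt hd (ZMod.val_lt a)
  exact ha ((ZMod.val_eq_zero a).mp h1)

/-- The relations of `tab4b`. -/
structure Rel4b (p : ℕ) (R : Type u) [NonUnitalRing R] (b c d e : ZMod p) (x y w z : R) :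
    Prop where
  cl : AddSubgroup.closure {x, y, w, z} = ⊤
  px : p • x = d.val • z
  py : p • y = e.val • z
  pw : p • w = 0
  pz : p • z = 0
  xx : x * x = w
  xy : x * y = 0
  xw : x * w = z
  xz : x * z = 0
  yx : y * x = b.val • z
  yy : y * y = c.val • z
  yw : y * w = 0
  yz : y * z = 0
  wx : w * x = z
  wy : w * y = 0
  ww : w * w = 0
  wz : w * z = 0
  zx : z * x = 0
  zy : z * y = 0
  zw : z * w = 0
  zz : z * z = 0

theorem range_four {R : Type u} (x y w z : R) :
    Set.range ![x, y, w, z] = {x, y, w, z} := by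
  ext a
  simp only [Set.mem_range, Set.mem_insert_iff, Set.mem_singleton_iff]
  constructor
  · rintro ⟨i, rfl⟩
    fin_cases i <;> simp
  · rintro (rfl | rfl | rfl | rfl)
    · exact ⟨0, rfl⟩
    · exact ⟨1, rfl⟩
    · exact ⟨2, rfl⟩
    · exact ⟨3, rfl⟩

theorem tab4b_iff {R : Type u} [NonUnitalRing R] (b c d e : ZMod p) :
    HasTab p R (tab4b b c d e) ↔ ∃ x y w z : R, Rel4b p R b c d e x y w z := by
  constructor
  · rintro ⟨g, hcl, hP, hM⟩
    refine ⟨g 0, g 1, g 2, g 3, ?_⟩
    have hg : Set.range g = {g 0, g 1, g 2, g 3} := by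
      rw [← range_four]
      congr 1
      ext i
      fin_cases i <;> rfl
    rw [hg] at hcl
    have P0 := hP 0
    have P1 := hP 1
    have P2 := hP 2
    have P3 := hP 3
    have M00 := hM 0 0
    have M01 := hM 0 1
    have M02 := hM 0 2
    have M03 := hM 0 3
    have M10 := hM 1 0
    have M11 := hM 1 1
    have M12 := hM 1 2
    have M13 := hM 1 3
    have M20 := hM 2 0
    have M21 := hM 2 1
    have M22 := hM 2 2
    have M23 := hM 2 3
    have M30 := hM 3 0
    have M31 := hM 3 1
    have M32 := hM 3 2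
    have M33 := hM 3 3
    simp [tab4b, Fin.sum_univ_four] at P0 P1 P2 P3 M00 M01 M02 M03 M10 M11 M12 M13 M20 M21 M22 M23 M30 M31 M32 M33
    constructor <;> assumption
  · rintro ⟨x, y, w, z, h⟩
    refine ⟨![x, y, w, z], ?_, ?_, ?_⟩
    · rw [range_four, h.cl]
    · intro i
      fin_cases i <;> simp [tab4b, Fin.sum_univ_four, h.px, h.py, h.pw, h.pz]
    · intro i j
      fin_cases i <;> fin_cases j <;>
        simp [tab4b, Fin.sum_univ_four, h.xx, h.xy, h.xw, h.xz, h.yx, h.yy, h.yw, h.yz, h.wx,
          h.wy, h.ww, h.wz, h.zx, h.zy, h.zw, h.zz]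

theorem step [Fact p.Prime] {R : Type u} [NonUnitalRing R] {b c d e : ZMod p}
    (h : HasTab p R (tab4b b c d e)) (u k v : ZMod p) (hu : u ≠ 0) (hv : v ≠ 0)
    (b' c' d' e' : ZMod p) (hb : b' * u ^ 2 = v * b) (hc : c' * u ^ 3 = v ^ 2 * c)
    (hd : d' * u ^ 3 = u * d + k * e) (he : e' * u ^ 3 = v * e) :
    HasTab p R (tab4b b' c' d' e') := by
  rw [tab4b_iff] at h ⊢
  obtain ⟨x, y, w, z, h⟩ := h
  set U : ℤ := (u.val : ℤ) with hU
  set K : ℤ := (k.val : ℤ) with hK
  set V : ℤ := (v.val : ℤ) with hV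
  set S : ℤ := ((-k * v * c / u).val : ℤ) with hS
  have cU : (U : ZMod p) = u := by simp [hU]
  have cK : (K : ZMod p) = k := by simp [hK]
  have cV : (V : ZMod p) = v := by simp [hV]
  have cS : (S : ZMod p) = -k * v * c / u := by simp [hS]
  have cval : ∀ a : ZMod p, ((a.val : ℤ) : ZMod p) = a := by intro a; simp
  have px : p • x = (d.val : ℤ) • z := by rw [h.px, natCast_zsmul]
  have py : p • y = (e.val : ℤ) • z := by rw [h.py, natCast_zsmul]
  have yx : y * x = (b.val : ℤ) • z := by rw [h.yx, natCast_zsmul]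
  have yy : y * y = (c.val : ℤ) • z := by rw [h.yy, natCast_zsmul]
  have hxx : (U • x + K • y) * (U • x + K • y) =
      (U * U) • w + (K * U * b.val + K * K * c.val) • z := by
    simp only [mul_add, add_mul, smul_mul_assoc, mul_smul_comm, h.xx, h.xy, yx, yy]
    module
  have hxw : (U • x + K • y) * ((U * U) • w + (K * U * b.val + K * K * c.val) • z) =
      (U * U * U) • z := by
    simp only [mul_add, add_mul, smul_mul_assoc, mul_smul_comm, h.xw, h.xz, h.yw, h.yz]
    module
  have hwx : ((U * U) • w + (K * U * b.val + K * K * c.val) • z) * (U • x + K • y) =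
      (U * U * U) • z := by
    simp only [mul_add, add_mul, smul_mul_assoc, mul_smul_comm, h.wx, h.zx, h.wy, h.zy]
    module
  have pz' : p • ((U * U * U) • z) = 0 := by rw [smul_comm, h.pz, smul_zero]
  have hUc : IsCoprime U (p : ℤ) := coprime_val hu
  have hVc : IsCoprime V (p : ℤ) := coprime_val hv
  -- rewrite multiples of `z` as multiples of `z'`
  have key : ∀ (m : ℤ) (a : ZMod p), (m : ZMod p) = a * u ^ 3 →
      m • z = a.val • ((U * U * U) • z) := by
    intro m a hm
    rw [← natCast_zsmul ((U * U * U) • z) a.val, smul_smul]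
    apply zsmul_congr h.pz
    rw [hm]
    simp only [Int.cast_mul, cU, cval]
    ring
  refine ⟨U • x + K • y, V • y + S • w, (U * U) • w + (K * U * b.val + K * K * c.val) • z,
    (U * U * U) • z, ?_⟩
  constructor
  · -- closure
    set H := AddSubgroup.closure ({U • x + K • y, V • y + S • w,
      (U * U) • w + (K * U * b.val + K * K * c.val) • z, (U * U * U) • z} : Set R) with hH
    have m1 : U • x + K • y ∈ H := AddSubgroup.subset_closure (by simp)
    have m2 : V • y + S • w ∈ H := AddSubgroup.subset_closure (by simp)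
    have m3 : (U * U) • w + (K * U * b.val + K * K * c.val) • z ∈ H :=
      AddSubgroup.subset_closure (by simp)
    have m4 : (U * U * U) • z ∈ H := AddSubgroup.subset_closure (by simp)
    have hz : z ∈ H := mem_of_coprime H z (U * U * U)
      (IsCoprime.mul_left (IsCoprime.mul_left hUc hUc) hUc) m4 (by rw [h.pz]; exact H.zero_mem)
    have hw : w ∈ H := by
      apply mem_of_coprime H w (U * U) (IsCoprime.mul_left hUc hUc) _
        (by rw [h.pw]; exact H.zero_mem)
      have := H.sub_mem m3 (H.zsmul_mem hz (K * U * b.val + K * K * c.val))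
      simpa using this
    have hy : y ∈ H := by
      apply mem_of_coprime H y V hVc _ (by rw [py]; exact H.zsmul_mem hz _)
      have := H.sub_mem m2 (H.zsmul_mem hw S)
      simpa using this
    have hx : x ∈ H := by
      apply mem_of_coprime H x U hUc _ (by rw [px]; exact H.zsmul_mem hz _)
      have := H.sub_mem m1 (H.zsmul_mem hy K)
      simpa using this
    rw [eq_top_iff, ← h.cl, AddSubgroup.closure_le]
    intro a ha
    simp only [Set.mem_insert_iff, Set.mem_singleton_iff] at ha
    rcases ha with rfl | rfl | rfl | rfl <;> assumption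
  · rw [smul_add, smul_comm p U, smul_comm p K, px, py, smul_smul, smul_smul, ← add_smul]
    apply key
    push_cast
    rw [cU, cK, hd]
    simp
  · rw [smul_add, smul_comm p V, smul_comm p S, py, h.pw, smul_smul, smul_zero, add_zero]
    apply key
    push_cast
    rw [cV, he]
    simp
  · rw [smul_add, smul_comm p, smul_comm p, h.pw, h.pz, smul_zero, smul_zero, add_zero]
  · exact pz'
  · exact hxx
  · have : (U • x + K • y) * (V • y + S • w) = (U * S + K * V * c.val) • z := by
      simp only [mul_add, add_mul, smul_mul_assoc, mul_smul_comm, h.xy, h.xw, yy, h.yw]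
      module
    rw [this]
    have h0 := key (U * S + K * V * c.val) 0 (by
      push_cast
      rw [cU, cK, cV, cS]
      simp
      field_simp
      ring)
    rw [h0]
    simp
  · exact hxw
  · simp only [mul_add, add_mul, smul_mul_assoc, mul_smul_comm, h.xz, h.yz, smul_zero, add_zero]
  · have : (V • y + S • w) * (U • x + K • y) =
        (V * U * b.val + V * K * c.val + S * U) • z := by
      simp only [mul_add, add_mul, smul_mul_assoc, mul_smul_comm, h.wx, h.wy, yx, yy]
      module
    rw [this]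
    apply key
    push_cast
    rw [cU, cK, cV, cS]
    have : b' * u ^ 3 = u * (v * b) := by rw [← hb]; ring
    rw [this]
    simp
    field_simp
    ring
  · have : (V • y + S • w) * (V • y + S • w) = (V * V * c.val) • z := by
      simp only [mul_add, add_mul, smul_mul_assoc, mul_smul_comm, h.ww, h.wy, h.yw, yy]
      module
    rw [this]
    apply key
    rw [hc]
    simp only [Int.cast_mul, cV, cval]
    ring
  · simp only [mul_add, add_mul, smul_mul_assoc, mul_smul_comm, h.yw, h.yz, h.ww, h.wz,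
      smul_zero, add_zero]
  · simp only [mul_add, add_mul, smul_mul_assoc, mul_smul_comm, h.yz, h.wz, smul_zero, add_zero]
  · exact hwx
  · simp only [mul_add, add_mul, smul_mul_assoc, mul_smul_comm, h.wy, h.ww, h.zy, h.zw,
      smul_zero, add_zero]
  · simp only [mul_add, add_mul, smul_mul_assoc, mul_smul_comm, h.ww, h.wz, h.zw, h.zz,
      smul_zero, add_zero]
  · simp only [mul_add, add_mul, smul_mul_assoc, mul_smul_comm, h.wz, h.zz, smul_zero, add_zero]
  · simp only [mul_add, add_mul, smul_mul_assoc, mul_smul_comm, h.zx, h.zy, smul_zero, add_zero]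
  · simp only [mul_add, add_mul, smul_mul_assoc, mul_smul_comm, h.zy, h.zw, smul_zero, add_zero]
  · simp only [mul_add, add_mul, smul_mul_assoc, mul_smul_comm, h.zw, h.zz, smul_zero, add_zero]
  · simp only [mul_add, add_mul, smul_mul_assoc, mul_smul_comm, h.zz, smul_zero, add_zero]

end Pool.NR.R4B

namespace Pool.NR

universe u

theorem r4b (hk : KREStmt) : R4BStmt.{u} := by
  intro p _ R _ b c d e h
  by_cases he : e = 0
  · subst he
    by_cases hb : b = 0
    · subst hb
      by_cases hc : c = 0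
      · subst hc
        by_cases hd : d = 0
        · subst hd
          exact ⟨0, 0, 0, 0, NF4b.b3 0 (Or.inl rfl), h⟩
        · obtain ⟨s, t, hs, ht, hst⟩ := hk p 2 d hd
          refine ⟨0, 0, s, 0, NF4b.b3 s (Or.inr hs), R4B.step h t 0 1 ht one_ne_zero _ _ _ _
            (by ring) (by ring) ?_ (by ring)⟩
          rw [hst]; ring
      · by_cases hd : d = 0
        · subst hd
          refine ⟨0, 1, 0, 0, NF4b.b4 0 (Or.inl rfl), R4B.step h c 0 c hc hc _ _ _ _
            (by ring) (by ring) (by ring) (by ring)⟩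
        · obtain ⟨s, t, hs, ht, hst⟩ := hk p 4 (d / c ^ 2) (div_ne_zero hd (pow_ne_zero 2 hc))
          have hd' : d = s * t ^ 4 * c ^ 2 := by
            rw [← hst]; field_simp
          refine ⟨0, 1, s, 0, NF4b.b4 s (Or.inr hs), R4B.step h (c * t ^ 2) 0 (c * t ^ 3)
            (mul_ne_zero hc (pow_ne_zero 2 ht))
            (mul_ne_zero hc (pow_ne_zero 3 ht)) _ _ _ _
            (by ring) (by ring) ?_ (by ring)⟩
          rw [hd']; ring
    · by_cases hc : c = 0
      · subst hc
        by_cases hd : d = 0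
        · subst hd
          refine ⟨1, 0, 0, 0, NF4b.b2 0 (Or.inl rfl), R4B.step h 1 0 b⁻¹ one_ne_zero
            (inv_ne_zero hb) _ _ _ _ (by field_simp) (by ring) (by ring) (by ring)⟩
        · obtain ⟨s, t, hs, ht, hst⟩ := hk p 2 d hd
          refine ⟨1, 0, s, 0, NF4b.b2 s (Or.inr hs), R4B.step h t 0 (t ^ 2 * b⁻¹) ht
            (mul_ne_zero (pow_ne_zero 2 ht) (inv_ne_zero hb)) _ _ _ _
            (by field_simp) (by ring) ?_ (by ring)⟩
          rw [hst]; ring
      · refine ⟨1, 1, d * (c / b ^ 2) ^ 2, 0, NF4b.b1 _, R4B.step h (b ^ 2 / c) 0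
          ((b ^ 2 / c) ^ 2 / b) (div_ne_zero (pow_ne_zero 2 hb) hc)
          (div_ne_zero (pow_ne_zero 2 (div_ne_zero (pow_ne_zero 2 hb) hc)) hb) _ _ _ _
          (by field_simp) (by field_simp) (by field_simp; ring) (by ring)⟩
  · by_cases hb : b = 0
    · subst hb
      by_cases hc : c = 0
      · subst hc
        refine ⟨0, 0, 0, 1, NF4b.a2 0 (Or.inl rfl), R4B.step h 1 (-d / e) (1 / e) one_ne_zero
          (div_ne_zero one_ne_zero he) _ _ _ _ (by ring) (by ring) (by field_simp; ring)
          (by field_simp)⟩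
      · obtain ⟨s, t, hs, ht, hst⟩ := hk p 3 (c / e ^ 2) (div_ne_zero hc (pow_ne_zero 2 he))
        have hc' : c = s * t ^ 3 * e ^ 2 := by
          rw [← hst]; field_simp
        refine ⟨0, s, 0, 1, NF4b.a2 s (Or.inr hs), R4B.step h t⁻¹ (-t⁻¹ * d / e)
          (t⁻¹ ^ 3 / e) (inv_ne_zero ht)
          (div_ne_zero (pow_ne_zero 3 (inv_ne_zero ht)) he) _ _ _ _
          (by ring) ?_ (by field_simp; ring) (by field_simp)⟩
        rw [hc']; field_simp
    · refine ⟨1, (e / b) ^ 3 * c / e ^ 2, 0, 1, NF4b.a1 _, R4B.step h (e / b)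
        (-(e / b) * d / e) ((e / b) ^ 3 / e) (div_ne_zero he hb)
        (div_ne_zero (pow_ne_zero 3 (div_ne_zero he hb)) he) _ _ _ _
        (by field_simp) (by field_simp) (by field_simp; ring) (by field_simp)⟩

end Pool.NR
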