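import Pool.Agent.H97.NR.Stmts

/-!
Normal forms for the rings with table `tab5b`.
-/

set_option linter.unusedSimpArgs false

namespace Pool.NR.R5B

universe u

variable {p : ℕ}

theorem mem_of_coprime {R : Type u} [NonUnitalRing R] (H : AddSubgroup R) (a : R) (m : ℤ)
    (hm : IsCoprime m (p : ℤ)) (h1 : m • a ∈ H) (h2 : p • a ∈ H) : a ∈ H := by
  obtain ⟨x, y, hxy⟩ := hm
  have h3 : a = x • (m • a) + y • (p • a) := by
    rw [← natCast_zsmul a p, ← mul_zsmul, ← mul_zsmul, ← add_zsmul, hxy, one_zsmul]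
  rw [h3]
  exact H.add_mem (H.zsmul_mem h1 x) (H.zsmul_mem h2 y)

/-- The relations of `tab5b`. -/
structure Rel5b (p : ℕ) (R : Type u) [NonUnitalRing R] (c d : ZMod p) (x y w z : R) :
    Prop where
  cl : AddSubgroup.closure {x, y, w, z} = ⊤
  px : p • x = y
  py : p • y = w
  pw : p • w = z
  pz : p • z = 0
  xx : x * x = c.val • w + d.val • z
  xy : x * y = c.val • z
  xw : x * w = 0
  xz : x * z = 0
  yx : y * x = c.val • z
  yy : y * y = 0
  yw : y * w = 0
  yz : y * z = 0
  wx : w * x = 0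
  wy : w * y = 0
  ww : w * w = 0
  wz : w * z = 0
  zx : z * x = 0
  zy : z * y = 0
  zw : z * w = 0
  zz : z * z = 0

theorem range_four {R : Type u} (x y w z : R) :
    Set.range ![x, y, w, z] = {x, y, w, z} := by
  ext a
  simp only [Set.mem_range, Set.mem_insert_iff, Set.mem_singleton_iff]
  constructor
  · rintro ⟨i, rfl⟩
    fin_cases i <;> simp
  · rintro (rfl | rfl | rfl | rfl)
    · exact ⟨0, rfl⟩
    · exact ⟨1, rfl⟩
    · exact ⟨2, rfl⟩
    · exact ⟨3, rfl⟩

theorem tab5b_iff {R : Type u} [NonUnitalRing R] (c d : ZMod p) :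
    HasTab p R (tab5b c d) ↔ ∃ x y w z : R, Rel5b p R c d x y w z := by
  constructor
  · rintro ⟨g, hcl, hP, hM⟩
    refine ⟨g 0, g 1, g 2, g 3, ?_⟩
    have hg : Set.range g = {g 0, g 1, g 2, g 3} := by
      rw [← range_four]
      congr 1
      ext i
      fin_cases i <;> rfl
    rw [hg] at hcl
    have P0 := hP 0
    have P1 := hP 1
    have P2 := hP 2
    have P3 := hP 3
    have M00 := hM 0 0
    have M01 := hM 0 1
    have M02 := hM 0 2
    have M03 := hM 0 3
    have M10 := hM 1 0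
    have M11 := hM 1 1
    have M12 := hM 1 2
    have M13 := hM 1 3
    have M20 := hM 2 0
    have M21 := hM 2 1
    have M22 := hM 2 2
    have M23 := hM 2 3
    have M30 := hM 3 0
    have M31 := hM 3 1
    have M32 := hM 3 2
    have M33 := hM 3 3
    simp [tab5b, Fin.sum_univ_four] at P0 P1 P2 P3 M00 M01 M02 M03 M10 M11 M12 M13 M20 M21 M22 M23 M30 M31 M32 M33
    constructor <;> assumption
  · rintro ⟨x, y, w, z, h⟩
    refine ⟨![x, y, w, z], ?_, ?_, ?_⟩
    · rw [range_four, h.cl]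
    · intro i
      fin_cases i <;> simp [tab5b, Fin.sum_univ_four, h.px, h.py, h.pw, h.pz]
    · intro i j
      fin_cases i <;> fin_cases j <;>
        simp [tab5b, Fin.sum_univ_four, h.xx, h.xy, h.xw, h.xz, h.yx, h.yy, h.yw, h.yz, h.wx,
          h.wy, h.ww, h.wz, h.zx, h.zy, h.zw, h.zz]

theorem step [Fact p.Prime] {R : Type u} [NonUnitalRing R] {c d : ZMod p}
    (h : HasTab p R (tab5b c d)) (U : ℤ) (hU : IsCoprime U (p : ℤ)) (c' d' : ZMod p)
    (hcd : (p : ℤ) ^ 2 ∣ U * (c.val + d.val * p) - (c'.val + d'.val * p)) :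
    HasTab p R (tab5b c' d') := by
  rw [tab5b_iff] at h ⊢
  obtain ⟨x, y, w, z, h⟩ := h
  obtain ⟨q, hq⟩ := hcd
  have pw : (p : ℤ) • w = z := by rw [natCast_zsmul]; exact h.pw
  have pz : (p : ℤ) • z = 0 := by rw [natCast_zsmul]; exact h.pz
  have ppw : ((p : ℤ) ^ 2) • w = 0 := by rw [pow_two, mul_smul, pw, pz]
  have xx : x * x = (c.val : ℤ) • w + (d.val : ℤ) • z := by
    rw [h.xx, natCast_zsmul, natCast_zsmul]
  have xy : x * y = (c.val : ℤ) • z := by rw [h.xy, natCast_zsmul]
  have yx : y * x = (c.val : ℤ) • z := by rw [h.yx, natCast_zsmul]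
  have k1 : (U * U * c.val) • w + (U * U * d.val) • z =
      c'.val • (U • w) + d'.val • (U • z) := by
    rw [← natCast_zsmul (U • w), ← natCast_zsmul (U • z), ← pw]
    have e1 : (U * U * (c.val : ℤ)) • w + (U * U * (d.val : ℤ)) • ((p : ℤ) • w) =
        (U * (c'.val + d'.val * p) + U * (q * (p : ℤ) ^ 2)) • w := by
      rw [smul_smul, ← add_smul]
      congr 1
      linear_combination U * hq
    rw [e1, add_smul, mul_smul U (q * (p : ℤ) ^ 2), mul_smul q, ppw]
    module
  have k2 : (U * U * c.val) • z = c'.val • (U • z) := by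
    rw [← natCast_zsmul (U • z)]
    have e1 : (U * U * (c.val : ℤ)) = U * c'.val +
        (U * (q * p - U * d.val + d'.val)) * p := by
      linear_combination U * hq
    rw [e1, add_smul, mul_smul _ (p : ℤ), pz]
    module
  refine ⟨U • x, U • y, U • w, U • z, ?_⟩
  constructor
  · set H := AddSubgroup.closure ({U • x, U • y, U • w, U • z} : Set R) with hH
    have m1 : U • x ∈ H := AddSubgroup.subset_closure (by simp)
    have m2 : U • y ∈ H := AddSubgroup.subset_closure (by simp)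
    have m3 : U • w ∈ H := AddSubgroup.subset_closure (by simp)
    have m4 : U • z ∈ H := AddSubgroup.subset_closure (by simp)
    have hz : z ∈ H := mem_of_coprime H z U hU m4 (by rw [h.pz]; exact H.zero_mem)
    have hw : w ∈ H := mem_of_coprime H w U hU m3 (by rw [h.pw]; exact hz)
    have hy : y ∈ H := mem_of_coprime H y U hU m2 (by rw [h.py]; exact hw)
    have hx : x ∈ H := mem_of_coprime H x U hU m1 (by rw [h.px]; exact hy)
    rw [eq_top_iff, ← h.cl, AddSubgroup.closure_le]
    intro a ha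
    simp only [Set.mem_insert_iff, Set.mem_singleton_iff] at ha
    rcases ha with rfl | rfl | rfl | rfl <;> assumption
  · rw [smul_comm, h.px]
  · rw [smul_comm, h.py]
  · rw [smul_comm, h.pw]
  · rw [smul_comm, h.pz, smul_zero]
  · rw [← k1, smul_mul_assoc, mul_smul_comm, xx]
    module
  · rw [← k2, smul_mul_assoc, mul_smul_comm, xy]
    module
  · rw [smul_mul_assoc, mul_smul_comm, h.xw, smul_zero, smul_zero]
  · rw [smul_mul_assoc, mul_smul_comm, h.xz, smul_zero, smul_zero]
  · rw [← k2, smul_mul_assoc, mul_smul_comm, yx]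
    module
  · rw [smul_mul_assoc, mul_smul_comm, h.yy, smul_zero, smul_zero]
  · rw [smul_mul_assoc, mul_smul_comm, h.yw, smul_zero, smul_zero]
  · rw [smul_mul_assoc, mul_smul_comm, h.yz, smul_zero, smul_zero]
  · rw [smul_mul_assoc, mul_smul_comm, h.wx, smul_zero, smul_zero]
  · rw [smul_mul_assoc, mul_smul_comm, h.wy, smul_zero, smul_zero]
  · rw [smul_mul_assoc, mul_smul_comm, h.ww, smul_zero, smul_zero]
  · rw [smul_mul_assoc, mul_smul_comm, h.wz, smul_zero, smul_zero]
  · rw [smul_mul_assoc, mul_smul_comm, h.zx, smul_zero, smul_zero]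
  · rw [smul_mul_assoc, mul_smul_comm, h.zy, smul_zero, smul_zero]
  · rw [smul_mul_assoc, mul_smul_comm, h.zw, smul_zero, smul_zero]
  · rw [smul_mul_assoc, mul_smul_comm, h.zz, smul_zero, smul_zero]

theorem coprime_val [Fact p.Prime] {a : ZMod p} (ha : a ≠ 0) :
    IsCoprime ((a.val : ℤ)) (p : ℤ) := by
  rw [Nat.isCoprime_iff_coprime]
  have h := (Fact.out : p.Prime)
  rw [Nat.coprime_comm, h.coprime_iff_not_dvd]
  intro hd
  have h1 := Nat.eq_zero_of_dvd_of_lt hd (ZMod.val_lt a)
  exact ha ((ZMod.val_eq_zero a).mp h1)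

end Pool.NR.R5B

namespace Pool.NR

universe u

theorem r5b : R5BStmt.{u} := by
  intro p _ R _ c d h
  have hp : 1 < p := (Fact.out : p.Prime).one_lt
  have : Fact (1 < p) := ⟨hp⟩
  have h1 : ((1 : ZMod p).val : ℤ) = 1 := by rw [ZMod.val_one]; rfl
  by_cases hc : c = 0
  · subst hc
    by_cases hd : d = 0
    · subst hd
      exact ⟨0, 0, NF5b.a3, h⟩
    · obtain ⟨x, y, hxy⟩ := R5B.coprime_val hd
      refine ⟨0, 1, NF5b.a2, R5B.step h x ⟨d.val, y, by linear_combination hxy⟩ 0 1
        ⟨-y, ?_⟩⟩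
      simp only [ZMod.val_zero, h1]
      push_cast
      linear_combination (p : ℤ) * hxy
  · have hm : IsCoprime ((c.val : ℤ) + d.val * p) (p : ℤ) := by
      obtain ⟨x, y, hxy⟩ := R5B.coprime_val hc
      exact ⟨x, y - x * d.val, by linear_combination hxy⟩
    have hm2 : IsCoprime ((c.val : ℤ) + d.val * p) ((p : ℤ) ^ 2) := hm.pow_right
    obtain ⟨x, y, hxy⟩ := hm2
    refine ⟨1, 0, NF5b.a1, R5B.step h x ⟨(c.val : ℤ) + d.val * p, y * p, ?_⟩ 1 0 ⟨-y, ?_⟩⟩
    · linear_combination hxy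
    · simp only [ZMod.val_zero, h1]
      push_cast
      linear_combination hxy

end Pool.NR
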