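import Pool.Agent.H97.NR.Stmts

/-!
Uniqueness of the normal forms `NF2bS`.
-/

set_option linter.unusedSimpArgs false

namespace Pool.NR.V2S

variable {p : ℕ}

theorem ext2 [Fact p.Prime] {a c1 c2 m11 m12 m21 m22 a' c1' c2' m11' m12' m21' m22' : ZMod p}
    (hM : m11 * m22 - m12 * m21 ≠ 0)
    (h : Eq2b (T2b a 0 0 c1 c2 m11 m12 m21 m22) (T2b a' 0 0 c1' c2' m11' m12' m21' m22')) :
    ∃ u g11 g12 g21 g22 : ZMod p, u ≠ 0 ∧ g11 * g22 - g12 * g21 ≠ 0 ∧ a' = u * a ∧
      c1' = c1 * g11 + c2 * g21 ∧ c2' = c1 * g12 + c2 * g22 ∧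
      u * m11' = g11 * (m11 * g11 + m12 * g21) + g21 * (m21 * g11 + m22 * g21) ∧
      u * m12' = g11 * (m11 * g12 + m12 * g22) + g21 * (m21 * g12 + m22 * g22) ∧
      u * m21' = g12 * (m11 * g11 + m12 * g21) + g22 * (m21 * g11 + m22 * g21) ∧
      u * m22' = g12 * (m11 * g12 + m12 * g22) + g22 * (m21 * g12 + m22 * g22) := by
  obtain ⟨u, h1, h2, g11, g12, g21, g22, hu, hg, h⟩ := h
  have e00 := h 0 0
  have e01 := h 0 1
  have e02 := h 0 2
  have e10 := h 1 0
  have e20 := h 2 0
  have e11 := h 1 1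
  have e12 := h 1 2
  have e21 := h 2 1
  have e22 := h 2 2
  simp [T2b, Fin.sum_univ_three] at e00 e01 e02 e10 e20 e11 e12 e21 e22
  -- `h = 0`
  have k1 : (h1 * m11 + h2 * m21) * (g11 * g22 - g12 * g21) = 0 := by
    linear_combination (-g22) * e01 + g21 * e02
  have k2 : (h1 * m12 + h2 * m22) * (g11 * g22 - g12 * g21) = 0 := by
    linear_combination (g12) * e01 - g11 * e02
  have k1' : h1 * m11 + h2 * m21 = 0 := (mul_eq_zero.mp k1).resolve_right hg
  have k2' : h1 * m12 + h2 * m22 = 0 := (mul_eq_zero.mp k2).resolve_right hg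
  have z1 : h1 = 0 := by
    have : h1 * (m11 * m22 - m12 * m21) = 0 := by linear_combination m22 * k1' - m21 * k2'
    exact (mul_eq_zero.mp this).resolve_right hM
  have z2 : h2 = 0 := by
    have : h2 * (m11 * m22 - m12 * m21) = 0 := by linear_combination (-m12) * k1' + m11 * k2'
    exact (mul_eq_zero.mp this).resolve_right hM
  subst z1 z2
  refine ⟨u, g11, g12, g21, g22, hu, hg, ?_, ?_, ?_, ?_, ?_, ?_, ?_⟩
  · apply mul_left_cancel₀ hu
    linear_combination e00
  · apply mul_left_cancel₀ hu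
    linear_combination e10
  · apply mul_left_cancel₀ hu
    linear_combination e20
  · linear_combination e11
  · linear_combination e12
  · linear_combination e21
  · linear_combination e22

theorem bit_eq [Fact p.Prime] {a a' u : ZMod p} (ha : Bit a) (ha' : Bit a') (hu : u ≠ 0)
    (h : a' = u * a) : a = a' := by
  rcases ha with rfl | rfl <;> rcases ha' with rfl | rfl
  · rfl
  · simp at h
  · simp at h; exact absurd h.symm hu
  · rfl

theorem zmod2 (hp : p = 2) (x : ZMod p) : x = 0 ∨ x = 1 := by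
  subst hp
  revert x
  decide

theorem two_eq (hp : p = 2) : (2 : ZMod p) = 0 := by
  subst hp
  rfl

end Pool.NR.V2S

namespace Pool.NR

theorem v2s (h2 : KR2Stmt) (hu : KRUStmt) : V2SStmt := by
  intro p _ B B' hB hB' h
  have hdet : ∀ {s s' u g11 g12 g21 g22 : ZMod p}, KRep p 2 s → KRep p 2 s' → u ≠ 0 →
      g11 * g22 - g12 * g21 ≠ 0 → u = g11 ^ 2 + s * g21 ^ 2 →
      0 = g11 * g12 + s * (g21 * g22) → u * s' = g12 ^ 2 + s * g22 ^ 2 → s = s' := by
    intro s s' u g11 g12 g21 g22 hs hs' hu0 hg e11 e12 e22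
    refine hu p 2 s s' ((g11 * g22 - g12 * g21) / u) hs hs' (div_ne_zero hg hu0) ?_
    field_simp
    linear_combination (u * s') * e11 + (g11 ^ 2 + s * g21 ^ 2) * e22 -
      (g11 * g12 + s * (g21 * g22)) * e12
  rcases hB with ⟨s, a, hs, ha⟩ | ⟨s, a, hs⟩ | ⟨a, hp, ha⟩ | ⟨a, hp, ha⟩ <;>
    rcases hB' with ⟨s', a', hs', ha'⟩ | ⟨s', a', hs'⟩ | ⟨a', hp', ha'⟩ | ⟨a', hp', ha'⟩
  -- s1 s1
  · obtain ⟨u, g11, g12, g21, g22, hu0, hg, ea, ec1, ec2, e11, e12, e21, e22⟩ :=
      V2S.ext2 (by simpa using hs.1) h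
    have es : s = s' := hdet hs hs' hu0 hg (by linear_combination e11)
      (by linear_combination e12) (by linear_combination e22)
    subst es
    rw [V2S.bit_eq ha ha' hu0 ea]
  · obtain ⟨u, g11, g12, g21, g22, hu0, hg, ea, ec1, ec2, e11, e12, e21, e22⟩ :=
      V2S.ext2 (by simpa using hs.1) h
    simp at ec2
  · obtain ⟨u, g11, g12, g21, g22, hu0, hg, ea, ec1, ec2, e11, e12, e21, e22⟩ :=
      V2S.ext2 (by simpa using hs.1) h
    simp at ec1
  · obtain ⟨u, g11, g12, g21, g22, hu0, hg, ea, ec1, ec2, e11, e12, e21, e22⟩ :=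
      V2S.ext2 (by simpa using hs.1) h
    simp at ec1
  -- s2
  · obtain ⟨u, g11, g12, g21, g22, hu0, hg, ea, ec1, ec2, e11, e12, e21, e22⟩ :=
      V2S.ext2 (by simpa using hs.1) h
    simp at ec1 ec2
    exact absurd (by linear_combination g12 * ec1 - g11 * ec2) hg
  · obtain ⟨u, g11, g12, g21, g22, hu0, hg, ea, ec1, ec2, e11, e12, e21, e22⟩ :=
      V2S.ext2 (by simpa using hs.1) h
    have es : s = s' := hdet hs hs' hu0 hg (by linear_combination e11)
      (by linear_combination e12) (by linear_combination e22)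
    subst es
    simp at ec1 ec2
    subst ec1 ec2
    have k11 : u = g11 ^ 2 := by linear_combination e11
    have k12 : g11 * g12 = 0 := by linear_combination -e12
    have hg11 : g11 ≠ 0 := by
      rintro rfl
      apply hu0; rw [k11]; ring
    have hg12 : g12 = 0 := (mul_eq_zero.mp k12).resolve_left hg11
    subst hg12
    have k22 : (u - 1) * s = 0 := by linear_combination e22
    have hu1 : u - 1 = 0 := (mul_eq_zero.mp k22).resolve_right hs.1
    have hu2 : u = 1 := by linear_combination hu1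
    subst hu2
    rw [ea, one_mul]
  · obtain ⟨u, g11, g12, g21, g22, hu0, hg, ea, ec1, ec2, e11, e12, e21, e22⟩ :=
      V2S.ext2 (by simpa using hs.1) h
    simp at ec1 ec2
    subst ec1 ec2
    have k12 : g12 ^ 2 = 0 := by linear_combination -e22
    have : g12 = 0 := by simpa using k12
    exact absurd (by rw [this]; ring) hg
  · obtain ⟨u, g11, g12, g21, g22, hu0, hg, ea, ec1, ec2, e11, e12, e21, e22⟩ :=
      V2S.ext2 (by simpa using hs.1) h
    have hs1 : s = 1 := (h2 p).2 hp' s hs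
    have hu1 : u = 1 := (V2S.zmod2 hp' u).resolve_left hu0
    subst hs1 hu1
    simp at ec1 ec2
    subst ec1 ec2
    have k1 : g11 ^ 2 = 0 := by linear_combination -e11
    have k2 : g12 ^ 2 = 0 := by linear_combination -e22
    have k1' : g11 = 0 := by simpa using k1
    have k2' : g12 = 0 := by simpa using k2
    exact absurd (by rw [k1', k2']; ring) hg
  -- s3
  · obtain ⟨u, g11, g12, g21, g22, hu0, hg, ea, ec1, ec2, e11, e12, e21, e22⟩ :=
      V2S.ext2 (by simp) h
    simp at ec1 ec2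
    exact absurd (by rw [← ec1, ← ec2]; ring) hg
  · obtain ⟨u, g11, g12, g21, g22, hu0, hg, ea, ec1, ec2, e11, e12, e21, e22⟩ :=
      V2S.ext2 (by simp) h
    simp at ec1 ec2
    subst ec1 ec2
    exact absurd (by linear_combination e11) hu0
  · obtain ⟨u, g11, g12, g21, g22, hu0, hg, ea, ec1, ec2, e11, e12, e21, e22⟩ :=
      V2S.ext2 (by simp) h
    rw [V2S.bit_eq ha ha' hu0 ea]
  · exact absurd hp' hp
  -- s4
  · obtain ⟨u, g11, g12, g21, g22, hu0, hg, ea, ec1, ec2, e11, e12, e21, e22⟩ :=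
      V2S.ext2 (by simp) h
    simp at ec1 ec2
    exact absurd (by linear_combination (-g22) * ec1 + g21 * ec2) hg
  · obtain ⟨u, g11, g12, g21, g22, hu0, hg, ea, ec1, ec2, e11, e12, e21, e22⟩ :=
      V2S.ext2 (by simp) h
    simp at ec1
    have h22 := V2S.two_eq hp
    exact absurd (by linear_combination e11 - (g11 + g21) * ec1 - g11 * g21 * h22) hu0
  · exact absurd hp hp'
  · obtain ⟨u, g11, g12, g21, g22, hu0, hg, ea, ec1, ec2, e11, e12, e21, e22⟩ :=
      V2S.ext2 (by simp) h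
    have hu1 : u = 1 := (V2S.zmod2 hp u).resolve_left hu0
    subst hu1
    rw [ea, one_mul]

end Pool.NR
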