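import Pool.Agent.H97.NR.Stmts

/-!
Pencils of `2 x 2` forms: the four families of normal forms are not equivalent.
-/

set_option linter.unusedSimpArgs false

namespace Pool.NR.W3D

variable {p : ℕ}

/-- The symmetric members of the pencil are the multiples of `c0 B_0 + c1 B_1`. -/
def Std (B : Fin 2 → Fin 2 → Fin 2 → ZMod p) (c0 c1 : ZMod p) : Prop :=
  (c0 ≠ 0 ∨ c1 ≠ 0) ∧ c0 * (B 0 0 1 - B 0 1 0) + c1 * (B 1 0 1 - B 1 1 0) = 0 ∧
    ∀ d0 d1 : ZMod p, d0 * (B 0 0 1 - B 0 1 0) + d1 * (B 1 0 1 - B 1 1 0) = 0 →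
      ∃ l : ZMod p, d0 = l * c0 ∧ d1 = l * c1

def Sm (B : Fin 2 → Fin 2 → Fin 2 → ZMod p) : Prop := ∀ l, B l 0 1 = B l 1 0

theorem eqs {B B' : Fin 2 → Fin 2 → Fin 2 → ZMod p} (h : Eq3a B B') :
    ∃ g00 g01 g10 g11 h00 h01 h10 h11 : ZMod p, g00 * g11 - g01 * g10 ≠ 0 ∧
      h00 * h11 - h01 * h10 ≠ 0 ∧
      (∀ l, (if l = 0 then h00 else h10) * B' 0 0 0 + (if l = 0 then h01 else h11) * B' 1 0 0 =
        g00 * (g00 * B l 0 0 + g10 * B l 0 1) + g10 * (g00 * B l 1 0 + g10 * B l 1 1)) ∧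
      (∀ l, (if l = 0 then h00 else h10) * B' 0 0 1 + (if l = 0 then h01 else h11) * B' 1 0 1 =
        g00 * (g01 * B l 0 0 + g11 * B l 0 1) + g10 * (g01 * B l 1 0 + g11 * B l 1 1)) ∧
      (∀ l, (if l = 0 then h00 else h10) * B' 0 1 0 + (if l = 0 then h01 else h11) * B' 1 1 0 =
        g01 * (g00 * B l 0 0 + g10 * B l 0 1) + g11 * (g00 * B l 1 0 + g10 * B l 1 1)) ∧
      (∀ l, (if l = 0 then h00 else h10) * B' 0 1 1 + (if l = 0 then h01 else h11) * B' 1 1 1 =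
        g01 * (g01 * B l 0 0 + g11 * B l 0 1) + g11 * (g01 * B l 1 0 + g11 * B l 1 1)) := by
  obtain ⟨g, h, hg, hh, H⟩ := h
  refine ⟨g 0 0, g 0 1, g 1 0, g 1 1, h 0 0, h 0 1, h 1 0, h 1 1, ?_, ?_, ?_, ?_, ?_, ?_⟩
  · rw [Matrix.det_fin_two] at hg; exact hg
  · rw [Matrix.det_fin_two] at hh; exact hh
  all_goals
    intro l
  · have := H 0 0 l
    simp only [Fin.sum_univ_two] at this
    fin_cases l <;> simp at this ⊢ <;> linear_combination this
  · have := H 0 1 l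
    simp only [Fin.sum_univ_two] at this
    fin_cases l <;> simp at this ⊢ <;> linear_combination this
  · have := H 1 0 l
    simp only [Fin.sum_univ_two] at this
    fin_cases l <;> simp at this ⊢ <;> linear_combination this
  · have := H 1 1 l
    simp only [Fin.sum_univ_two] at this
    fin_cases l <;> simp at this ⊢ <;> linear_combination this

theorem sm1 [Fact p.Prime] {B B' : Fin 2 → Fin 2 → Fin 2 → ZMod p} (h : Eq3a B B')
    (hB : Sm B) : Sm B' := by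
  obtain ⟨g00, g01, g10, g11, h00, h01, h10, h11, hg, hh, e00, e01, e10, e11⟩ := eqs h
  have a0 := e01 0
  have a1 := e01 1
  have b0 := e10 0
  have b1 := e10 1
  have s0 := hB 0
  have s1 := hB 1
  simp at a0 a1 b0 b1
  have k0 : (h00 * h11 - h01 * h10) * (B' 0 0 1 - B' 0 1 0) = 0 := by
    linear_combination h11 * (a0 - b0) - h01 * (a1 - b1) +
      h11 * (g00 * g11 - g01 * g10) * s0 - h01 * (g00 * g11 - g01 * g10) * s1
  have k1 : (h00 * h11 - h01 * h10) * (B' 1 0 1 - B' 1 1 0) = 0 := by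
    linear_combination h00 * (a1 - b1) - h10 * (a0 - b0) +
      h00 * (g00 * g11 - g01 * g10) * s1 - h10 * (g00 * g11 - g01 * g10) * s0
  intro l
  fin_cases l
  · exact sub_eq_zero.mp ((mul_eq_zero.mp k0).resolve_left hh)
  · exact sub_eq_zero.mp ((mul_eq_zero.mp k1).resolve_left hh)

theorem sm2 [Fact p.Prime] {B B' : Fin 2 → Fin 2 → Fin 2 → ZMod p} (h : Eq3a B B')
    (hB : Sm B') : Sm B := by
  obtain ⟨g00, g01, g10, g11, h00, h01, h10, h11, hg, hh, e00, e01, e10, e11⟩ := eqs h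
  have s0 := hB 0
  have s1 := hB 1
  intro l
  have a := e01 l
  have b := e10 l
  have k : (g00 * g11 - g01 * g10) * (B l 0 1 - B l 1 0) = 0 := by
    linear_combination b - a + (if l = 0 then h00 else h10) * s0 +
      (if l = 0 then h01 else h11) * s1
  exact sub_eq_zero.mp ((mul_eq_zero.mp k).resolve_left hg)

theorem main [Fact p.Prime] {B B' : Fin 2 → Fin 2 → Fin 2 → ZMod p} {c0 c1 c0' c1' : ZMod p}
    (h : Eq3a B B') (hB : Std B c0 c1) (hB' : Std B' c0' c1') :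
    ∃ g00 g01 g10 g11 m : ZMod p, g00 * g11 - g01 * g10 ≠ 0 ∧ m ≠ 0 ∧
      m * (c0' * B' 0 0 0 + c1' * B' 1 0 0) =
        g00 * (g00 * (c0 * B 0 0 0 + c1 * B 1 0 0) + g10 * (c0 * B 0 0 1 + c1 * B 1 0 1)) +
        g10 * (g00 * (c0 * B 0 1 0 + c1 * B 1 1 0) + g10 * (c0 * B 0 1 1 + c1 * B 1 1 1)) ∧
      m * (c0' * B' 0 0 1 + c1' * B' 1 0 1) =
        g00 * (g01 * (c0 * B 0 0 0 + c1 * B 1 0 0) + g11 * (c0 * B 0 0 1 + c1 * B 1 0 1)) +
        g10 * (g01 * (c0 * B 0 1 0 + c1 * B 1 1 0) + g11 * (c0 * B 0 1 1 + c1 * B 1 1 1)) ∧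
      m * (c0' * B' 0 1 1 + c1' * B' 1 1 1) =
        g01 * (g01 * (c0 * B 0 0 0 + c1 * B 1 0 0) + g11 * (c0 * B 0 0 1 + c1 * B 1 0 1)) +
        g11 * (g01 * (c0 * B 0 1 0 + c1 * B 1 1 0) + g11 * (c0 * B 0 1 1 + c1 * B 1 1 1)) := by
  obtain ⟨g00, g01, g10, g11, h00, h01, h10, h11, hg, hh, e00, e01, e10, e11⟩ := eqs h
  obtain ⟨hc, hs, -⟩ := hB
  obtain ⟨-, -, hu⟩ := hB'
  have e000 := e00 0
  have e001 := e00 1
  have e010 := e01 0
  have e011 := e01 1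
  have e100 := e10 0
  have e101 := e10 1
  have e110 := e11 0
  have e111 := e11 1
  simp at e000 e001 e010 e011 e100 e101 e110 e111
  obtain ⟨m, hm0, hm1⟩ := hu (c0 * h00 + c1 * h10) (c0 * h01 + c1 * h11) (by
    linear_combination c0 * (e010 - e100) + c1 * (e011 - e101) +
      (g00 * g11 - g01 * g10) * hs)
  refine ⟨g00, g01, g10, g11, m, hg, ?_, ?_, ?_, ?_⟩
  · rintro rfl
    have k0 : (h00 * h11 - h01 * h10) * c0 = 0 := by
      linear_combination h11 * hm0 - h10 * hm1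
    have k1 : (h00 * h11 - h01 * h10) * c1 = 0 := by
      linear_combination h00 * hm1 - h01 * hm0
    rcases hc with hc | hc
    · exact hc ((mul_eq_zero.mp k0).resolve_left hh)
    · exact hc ((mul_eq_zero.mp k1).resolve_left hh)
  · linear_combination c0 * e000 + c1 * e001 - B' 0 0 0 * hm0 - B' 1 0 0 * hm1
  · linear_combination c0 * e010 + c1 * e011 - B' 0 0 1 * hm0 - B' 1 0 1 * hm1
  · linear_combination c0 * e110 + c1 * e111 - B' 0 1 1 * hm0 - B' 1 1 1 * hm1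

theorem smC {B : Fin 2 → Fin 2 → Fin 2 → ZMod p} (h : NF3aC B) : Sm B := by
  rcases h with _ | ⟨a, ha⟩ | _ <;> intro l <;> fin_cases l <;> simp [T22]

/-- data of the symmetric member -/
def Dat (B : Fin 2 → Fin 2 → Fin 2 → ZMod p) (x y z : ZMod p) : Prop :=
  ∃ c0 c1 : ZMod p, Std B c0 c1 ∧ c0 * B 0 0 0 + c1 * B 1 0 0 = x ∧
    c0 * B 0 0 1 + c1 * B 1 0 1 = y ∧ c0 * B 0 1 0 + c1 * B 1 1 0 = y ∧
    c0 * B 0 1 1 + c1 * B 1 1 1 = z

theorem notSm [Fact p.Prime] {B : Fin 2 → Fin 2 → Fin 2 → ZMod p} {x y z : ZMod p}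
    (h : Dat B x y z) : ¬ Sm B := by
  rintro hs
  obtain ⟨c0, c1, ⟨hc, -, hu⟩, -⟩ := h
  have s0 := hs 0
  have s1 := hs 1
  obtain ⟨l, h1, h2⟩ := hu 1 0 (by rw [s0, s1]; ring)
  obtain ⟨l', h1', h2'⟩ := hu 0 1 (by rw [s0, s1]; ring)
  have hl : l ≠ 0 := by rintro rfl; simp at h1
  have hl' : l' ≠ 0 := by rintro rfl; simp at h2'
  have hc1 : c1 = 0 := (mul_eq_zero.mp h2.symm).resolve_left hl
  have hc0 : c0 = 0 := (mul_eq_zero.mp h1'.symm).resolve_left hl'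
  simp [hc0, hc1] at hc

theorem std10 [Fact p.Prime] {B : Fin 2 → Fin 2 → Fin 2 → ZMod p} (h0 : B 0 0 1 = B 0 1 0)
    (h1 : B 1 0 1 ≠ B 1 1 0) : Std B 1 0 := by
  refine ⟨Or.inl one_ne_zero, by rw [h0]; ring, ?_⟩
  intro d0 d1 hd
  refine ⟨d0, by ring, ?_⟩
  have : d1 * (B 1 0 1 - B 1 1 0) = 0 := by rw [h0] at hd; linear_combination hd
  rw [(mul_eq_zero.mp this).resolve_right (sub_ne_zero.mpr h1)]
  ring

theorem datX [Fact p.Prime] {B : Fin 2 → Fin 2 → Fin 2 → ZMod p} (h : NF3aX B) :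
    Dat B 1 0 0 := by
  rcases h with ⟨t, ht⟩ | _ | _
  · exact ⟨1, 0, std10 (by simp [T22]) (by simpa [T22] using ht.symm), by simp [T22],
      by simp [T22], by simp [T22], by simp [T22]⟩
  · exact ⟨1, 0, std10 (by simp [T22]) (by simp [T22]), by simp [T22],
      by simp [T22], by simp [T22], by simp [T22]⟩
  · exact ⟨1, 0, std10 (by simp [T22]) (by simp [T22]), by simp [T22],
      by simp [T22], by simp [T22], by simp [T22]⟩

theorem datH [Fact p.Prime] {B : Fin 2 → Fin 2 → Fin 2 → ZMod p} (h : NF3aH B) :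
    Dat B 0 1 0 := by
  rcases h with _ | ⟨m, hm⟩
  · refine ⟨1, 1, ⟨Or.inl one_ne_zero, by simp [T22], ?_⟩, by simp [T22],
      by simp [T22], by simp [T22], by simp [T22]⟩
    intro d0 d1 hd
    simp [T22] at hd
    exact ⟨d0, by ring, by linear_combination -hd⟩
  · exact ⟨1, 0, std10 (by simp [T22]) (by simp [T22]), by simp [T22],
      by simp [T22], by simp [T22], by simp [T22]⟩

theorem datN [Fact p.Prime] {B : Fin 2 → Fin 2 → Fin 2 → ZMod p} (h : NF3aN B) :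
    (∃ s : ZMod p, p ≠ 2 ∧ KRep p 2 s ∧ s ≠ 1 ∧ Dat B 1 0 (-s)) ∨ (p = 2 ∧ Dat B 1 0 1) := by
  rcases h with ⟨s, a, b, hp, hs, hs1, hr⟩ | ⟨a, hp⟩
  · left
    refine ⟨s, hp, hs, hs1, 1, 0, std10 (by simp [T22]) ?_, by simp [T22],
      by simp [T22], by simp [T22], by simp [T22]⟩
    simp [T22]
    intro h
    have h2 : (2 : ZMod p) = 0 := by linear_combination h
    have h3 : ((2 : ℕ) : ZMod p) = 0 := by exact_mod_cast h2
    rw [ZMod.natCast_eq_zero_iff] at h3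
    exact hp ((Nat.prime_dvd_prime_iff_eq (Fact.out : p.Prime) Nat.prime_two).mp h3)
  · right
    exact ⟨hp, 1, 0, std10 (by simp [T22]) (by simp [T22]), by simp [T22],
      by simp [T22], by simp [T22], by simp [T22]⟩

theorem four {B : Fin 2 → Fin 2 → Fin 2 → ZMod p} (h : NF3a B) :
    NF3aC B ∨ NF3aX B ∨ NF3aH B ∨ NF3aN B := by
  cases h with
  | c h => exact Or.inl h
  | x h => exact Or.inr (Or.inl h)
  | h h => exact Or.inr (Or.inr (Or.inl h))
  | n h => exact Or.inr (Or.inr (Or.inr h))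

theorem rel [Fact p.Prime] {B B' : Fin 2 → Fin 2 → Fin 2 → ZMod p} {x y z x' y' z' : ZMod p}
    (h : Eq3a B B') (hB : Dat B x y z) (hB' : Dat B' x' y' z') :
    ∃ g00 g01 g10 g11 m : ZMod p, g00 * g11 - g01 * g10 ≠ 0 ∧ m ≠ 0 ∧
      m * x' = g00 * (g00 * x + g10 * y) + g10 * (g00 * y + g10 * z) ∧
      m * y' = g00 * (g01 * x + g11 * y) + g10 * (g01 * y + g11 * z) ∧
      m * z' = g01 * (g01 * x + g11 * y) + g11 * (g01 * y + g11 * z) := by
  obtain ⟨c0, c1, hs, h1, h2, h3, h4⟩ := hB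
  obtain ⟨c0', c1', hs', h1', h2', h3', h4'⟩ := hB'
  have := main h hs hs'
  rw [h1, h2, h3, h4, h1', h2', h4'] at this
  exact this

/-- determinants -/
theorem rdet [Fact p.Prime] {B B' : Fin 2 → Fin 2 → Fin 2 → ZMod p} {x y z x' y' z' : ZMod p}
    (h : Eq3a B B') (hB : Dat B x y z) (hB' : Dat B' x' y' z') :
    ∃ t : ZMod p, t ≠ 0 ∧ x' * z' - y' ^ 2 = t ^ 2 * (x * z - y ^ 2) := by
  obtain ⟨g00, g01, g10, g11, m, hg, hm, e1, e2, e3⟩ := rel h hB hB'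
  refine ⟨(g00 * g11 - g01 * g10) / m, div_ne_zero hg hm, ?_⟩
  field_simp
  linear_combination (m * z') * e1 +
    (g00 * (g00 * x + g10 * y) + g10 * (g00 * y + g10 * z)) * e3 -
    (m * y' + (g00 * (g01 * x + g11 * y) + g10 * (g01 * y + g11 * z))) * e2

end Pool.NR.W3D

namespace Pool.NR

theorem w3d (h2 : KR2Stmt) : W3DStmt := by
  intro p _ B B' hB hB' h
  have nsq : ∀ s : ZMod p, p ≠ 2 → KRep p 2 s → s ≠ 1 → ¬ IsSquare s := by
    intro s hp hs hs1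
    obtain ⟨s0, -, -, hn, hall, -⟩ := (h2 p).1 hp
    rcases hall s hs with h | h
    · exact absurd h hs1
    · rw [h]; exact hn
  have two : p = 2 → (2 : ZMod p) = 0 := by
    rintro rfl; rfl
  -- X versus others by determinant zero
  rcases W3D.four hB with hB | hB | hB | hB <;>
    rcases W3D.four hB' with hB' | hB' | hB' | hB'
  · exact Or.inl ⟨hB, hB'⟩
  · exact absurd (W3D.sm1 h (W3D.smC hB)) (W3D.notSm (W3D.datX hB'))
  · exact absurd (W3D.sm1 h (W3D.smC hB)) (W3D.notSm (W3D.datH hB'))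
  · rcases W3D.datN hB' with ⟨s, -, -, -, hd⟩ | ⟨-, hd⟩
    · exact absurd (W3D.sm1 h (W3D.smC hB)) (W3D.notSm hd)
    · exact absurd (W3D.sm1 h (W3D.smC hB)) (W3D.notSm hd)
  · exact absurd (W3D.sm2 h (W3D.smC hB')) (W3D.notSm (W3D.datX hB))
  · exact Or.inr (Or.inl ⟨hB, hB'⟩)
  · obtain ⟨t, ht, e⟩ := W3D.rdet h (W3D.datX hB) (W3D.datH hB')
    exact absurd (by linear_combination -e) (one_ne_zero (α := ZMod p))
  · rcases W3D.datN hB' with ⟨s, -, hs, -, hd⟩ | ⟨-, hd⟩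
    · obtain ⟨t, ht, e⟩ := W3D.rdet h (W3D.datX hB) hd
      exact absurd (by linear_combination -e) hs.1
    · obtain ⟨t, ht, e⟩ := W3D.rdet h (W3D.datX hB) hd
      exact absurd (by linear_combination e) (one_ne_zero (α := ZMod p))
  · exact absurd (W3D.sm2 h (W3D.smC hB')) (W3D.notSm (W3D.datH hB))
  · obtain ⟨t, ht, e⟩ := W3D.rdet h (W3D.datH hB) (W3D.datX hB')
    exact absurd (by linear_combination e) (pow_ne_zero 2 ht)
  · exact Or.inr (Or.inr (Or.inl ⟨hB, hB'⟩))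
  · rcases W3D.datN hB' with ⟨s, hp, hs, hs1, hd⟩ | ⟨hp, hd⟩
    · obtain ⟨t, ht, e⟩ := W3D.rdet h (W3D.datH hB) hd
      exact absurd ⟨t, by linear_combination -e⟩ (nsq s hp hs hs1)
    · obtain ⟨g00, g01, g10, g11, m, hg, hm, e1, e2, e3⟩ := W3D.rel h (W3D.datH hB) hd
      exact absurd (by linear_combination e1 + g00 * g10 * two hp) hm
  · rcases W3D.datN hB with ⟨s, -, -, -, hd⟩ | ⟨-, hd⟩
    · exact absurd (W3D.sm2 h (W3D.smC hB')) (W3D.notSm hd)
    · exact absurd (W3D.sm2 h (W3D.smC hB')) (W3D.notSm hd)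
  · rcases W3D.datN hB with ⟨s, -, hs, -, hd⟩ | ⟨-, hd⟩
    · obtain ⟨t, ht, e⟩ := W3D.rdet h hd (W3D.datX hB')
      exact absurd (by linear_combination e) (mul_ne_zero (pow_ne_zero 2 ht) hs.1)
    · obtain ⟨t, ht, e⟩ := W3D.rdet h hd (W3D.datX hB')
      exact absurd (by linear_combination -e) (pow_ne_zero 2 ht)
  · rcases W3D.datN hB with ⟨s, hp, hs, hs1, hd⟩ | ⟨hp, hd⟩
    · obtain ⟨t, ht, e⟩ := W3D.rdet h hd (W3D.datH hB')
      have : IsSquare s := ⟨t⁻¹, by field_simp; linear_combination e⟩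
      exact absurd this (nsq s hp hs hs1)
    · obtain ⟨g00, g01, g10, g11, m, hg, hm, e1, e2, e3⟩ := W3D.rel h hd (W3D.datH hB')
      have k1 : (g00 + g10) ^ 2 = 0 := by linear_combination -e1 + g00 * g10 * two hp
      have k2 : (g01 + g11) ^ 2 = 0 := by linear_combination -e3 + g01 * g11 * two hp
      have k1' : g00 + g10 = 0 := by simpa using k1
      have k2' : g01 + g11 = 0 := by simpa using k2
      exact absurd (by linear_combination g11 * k1' - g10 * k2') hg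
  · exact Or.inr (Or.inr (Or.inr ⟨hB, hB'⟩))

end Pool.NR
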